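import Pool.Agent.V5helper44.FZ.Stm

set_option autoImplicit false

/-!
# Project FZ, job CON: decay of the characteristic function implies non-concentration
-/

open MeasureTheory

namespace Pool.Agent.V5helper65.FZ
open Pool.Agent.V5helper44.FZ

theorem norm_ex (y : ℝ) : ‖ex y‖ = 1 := by
  unfold ex
  have : (2 * Real.pi * y * Complex.I : ℂ) = ((2 * Real.pi * y : ℝ) : ℂ) * Complex.I := by push_cast; ring
  rw [this]
  exact Complex.norm_exp_ofReal_mul_I _

theorem ex_add (x y : ℝ) : ex (x + y) = ex x * ex y := by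
  unfold ex
  rw [← Complex.exp_add]
  congr 1
  push_cast
  ring

theorem continuous_ex : Continuous ex := by
  unfold ex
  exact Complex.continuous_exp.comp
    ((continuous_const.mul Complex.continuous_ofReal).mul continuous_const)

theorem gauss (y : ℝ) : ∫ s : ℝ, ((Real.exp (-Real.pi * s ^ 2) : ℝ) : ℂ) * ex (s * y) =
    ((Real.exp (-Real.pi * y ^ 2) : ℝ) : ℂ) := by
  have h := fourierIntegral_gaussian (b := (Real.pi : ℂ)) (by simpa using Real.pi_pos)
    (2 * Real.pi * y : ℂ)
  have hpi : (Real.pi : ℂ) ≠ 0 := by exact_mod_cast Real.pi_ne_zero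
  rw [div_self hpi, Complex.one_cpow, one_mul] at h
  have e1 : (((Real.exp (-Real.pi * y ^ 2) : ℝ) : ℂ)) = Complex.exp (-(2 * Real.pi * y : ℂ) ^ 2 / (4 * Real.pi)) := by
    rw [Complex.ofReal_exp]
    congr 1
    push_cast
    field_simp
    ring
  rw [e1, ← h]
  apply integral_congr_ae
  filter_upwards with s
  unfold ex
  rw [Complex.ofReal_exp, mul_comm]
  congr 1
  · congr 1
    push_cast
    ring
  · congr 1
    push_cast
    ring

theorem small {C₀ η : ℝ} (hη : 0 < η) {Ω : Type} [MeasurableSpace Ω] (P : Measure Ω) [IsProbabilityMeasure P]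
    (X : Ω → ℝ) (hX : Measurable X) {N : ℝ} (hN : 0 < N) (hdec : Decay P X N C₀ η) (a : ℝ) {r : ℝ} (hr : 0 < r)
    {δ : ℝ} (hδ : 0 < δ) :
    Real.exp (-Real.pi) * P.real {ω | |X ω - a| ≤ r} ≤ 2 * δ + |C₀| * (δ * N / r) ^ (-η) := by
  set g : ℝ → ℝ := fun s => Real.exp (-Real.pi * s ^ 2) with hg
  have hgi : Integrable g := integrable_exp_neg_mul_sq Real.pi_pos
  have hg0 : ∀ s, 0 ≤ g s := fun s => (Real.exp_pos _).le
  have hg1 : ∀ s, g s ≤ 1 := fun s => by
    rw [hg]
    apply Real.exp_le_one_iff.2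
    have : 0 ≤ Real.pi * s ^ 2 := by positivity
    linarith
  have hgint : ∫ s, g s = 1 := by
    rw [hg, integral_gaussian, div_self Real.pi_ne_zero, Real.sqrt_one]
  set Y : Ω → ℝ := fun ω => (X ω - a) / r with hY
  have hYm : Measurable Y := (hX.sub_const a).div_const r
  -- Markov
  have hfm : Measurable fun ω => g (Y ω) := by
    have hgm : Measurable g := by
      rw [hg]
      fun_prop
    exact hgm.comp hYm
  have hfi : Integrable (fun ω => g (Y ω)) P := by
    refine Integrable.mono' (integrable_const (1 : ℝ)) hfm.aestronglyMeasurable ?_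
    filter_upwards with ω
    rw [Real.norm_eq_abs, abs_of_nonneg (hg0 _)]
    exact hg1 _
  have h1 : Real.exp (-Real.pi) * P.real {ω | |X ω - a| ≤ r} ≤ ∫ ω, g (Y ω) ∂P := by
    have hm := mul_meas_ge_le_integral_of_nonneg (μ := P) (f := fun ω => g (Y ω))
      (by filter_upwards with ω; exact hg0 _) hfi (Real.exp (-Real.pi))
    refine le_trans (mul_le_mul_of_nonneg_left (measureReal_mono ?_) (Real.exp_pos _).le) hm
    intro ω hω
    have hω' : |X ω - a| ≤ r := hω
    show Real.exp (-Real.pi) ≤ g (Y ω)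
    rw [hg]
    apply Real.exp_le_exp.2
    have h2 : |Y ω| ≤ 1 := by
      rw [hY]
      show |(X ω - a) / r| ≤ 1
      rw [abs_div, abs_of_pos hr, div_le_one hr]
      exact hω'
    have h3 : Y ω ^ 2 ≤ 1 := by
      rw [← sq_abs]
      nlinarith [abs_nonneg (Y ω)]
    nlinarith [Real.pi_pos]
  refine h1.trans ?_
  -- Fourier representation
  have h2 : ((∫ ω, g (Y ω) ∂P : ℝ) : ℂ) = ∫ s : ℝ, ((g s : ℝ) : ℂ) * ∫ ω, ex (s * Y ω) ∂P := by
    rw [← integral_complex_ofReal]
    have e1 : ∀ ω, ((g (Y ω) : ℝ) : ℂ) = ∫ s : ℝ, ((g s : ℝ) : ℂ) * ex (s * Y ω) := fun ω => (gauss (Y ω)).symm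
    simp_rw [e1]
    rw [integral_integral_swap]
    · apply integral_congr_ae
      filter_upwards with s
      rw [integral_const_mul]
    · refine Integrable.mono' (hgi.comp_snd P) ?_ ?_
      · apply Measurable.aestronglyMeasurable
        apply Measurable.mul
        · apply Complex.measurable_ofReal.comp
          rw [hg]
          fun_prop
        · exact continuous_ex.measurable.comp (measurable_snd.mul (hYm.comp measurable_fst))
      · filter_upwards with z
        show ‖((g z.2 : ℝ) : ℂ) * ex (z.2 * Y z.1)‖ ≤ g z.2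
        rw [norm_mul, norm_ex, mul_one, Complex.norm_real, Real.norm_eq_abs, abs_of_nonneg (hg0 _)]
  have h3 : ∫ ω, g (Y ω) ∂P = ‖∫ s : ℝ, ((g s : ℝ) : ℂ) * ∫ ω, ex (s * Y ω) ∂P‖ := by
    rw [← h2, Complex.norm_real, Real.norm_eq_abs, abs_of_nonneg (integral_nonneg fun ω => hg0 _)]
  rw [h3]
  -- the bound
  set K : ℝ := |C₀| * (δ * N / r) ^ (-η) with hK
  have hK0 : 0 ≤ K := by positivity
  have hphi1 : ∀ s : ℝ, ‖∫ ω, ex (s * Y ω) ∂P‖ ≤ 1 := by
    intro s
    refine (norm_integral_le_of_norm_le_const (C := 1) ?_).trans ?_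
    · filter_upwards with ω
      rw [norm_ex]
    · rw [probReal_univ, mul_one]
  have hphi2 : ∀ s : ℝ, δ < |s| → ‖∫ ω, ex (s * Y ω) ∂P‖ ≤ K := by
    intro s hs
    have hs0 : s ≠ 0 := by
      intro h
      rw [h, abs_zero] at hs
      linarith
    have e1 : ∀ ω, ex (s * Y ω) = ex (-(s * a / r)) * ex (s / r * X ω) := by
      intro ω
      rw [← ex_add]
      congr 1
      rw [hY]
      field_simp
      ring
    simp_rw [e1]
    rw [integral_const_mul, norm_mul, norm_ex, one_mul]
    refine (hdec (s / r) (div_ne_zero hs0 hr.ne')).trans ?_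
    have hpos : 0 < δ * N / r := by positivity
    have hle : δ * N / r ≤ |s / r| * N := by
      rw [abs_div, abs_of_pos hr, div_mul_eq_mul_div]
      apply div_le_div_of_nonneg_right _ hr.le
      exact mul_le_mul_of_nonneg_right hs.le hN.le
    have h4 : (|s / r| * N) ^ (-η) ≤ (δ * N / r) ^ (-η) :=
      Real.rpow_le_rpow_of_nonpos hpos hle (by linarith)
    have h5 : 0 ≤ (|s / r| * N) ^ (-η) := by positivity
    calc C₀ * (|s / r| * N) ^ (-η) ≤ |C₀| * (|s / r| * N) ^ (-η) :=
          mul_le_mul_of_nonneg_right (le_abs_self _) h5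
      _ ≤ K := mul_le_mul_of_nonneg_left h4 (abs_nonneg _)
  have hbi : Integrable (fun s : ℝ => (Set.Icc (-δ) δ).indicator (fun _ => (1 : ℝ)) s + K * g s) := by
    apply Integrable.add
    · rw [integrable_indicator_iff measurableSet_Icc]
      exact integrableOn_const (by rw [Real.volume_Icc]; exact ENNReal.ofReal_ne_top)
    · exact hgi.const_mul K
  have hbound := norm_integral_le_of_norm_le (μ := (volume : Measure ℝ))
    (f := fun s : ℝ => ((g s : ℝ) : ℂ) * ∫ ω, ex (s * Y ω) ∂P) hbi (by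
      filter_upwards with s
      rw [norm_mul, Complex.norm_real, Real.norm_eq_abs, abs_of_nonneg (hg0 _)]
      by_cases hs : δ < |s|
      · have h6 := mul_le_mul_of_nonneg_left (hphi2 s hs) (hg0 s)
        have h7 : 0 ≤ (Set.Icc (-δ) δ).indicator (fun _ => (1 : ℝ)) s :=
          Set.indicator_nonneg (fun _ _ => zero_le_one) s
        linarith
      · have hmem : s ∈ Set.Icc (-δ) δ := abs_le.1 (not_lt.1 hs)
        rw [Set.indicator_of_mem hmem]
        have h6 : g s * ‖∫ ω, ex (s * Y ω) ∂P‖ ≤ 1 * 1 :=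
          mul_le_mul (hg1 s) (hphi1 s) (norm_nonneg _) zero_le_one
        have h7 : 0 ≤ K * g s := mul_nonneg hK0 (hg0 s)
        linarith)
  refine hbound.trans (le_of_eq ?_)
  rw [integral_add, integral_const_mul, hgint, mul_one, integral_indicator measurableSet_Icc, setIntegral_const,
    Real.volume_real_Icc]
  · rw [max_eq_left (by linarith)]
    simp only [smul_eq_mul]
    ring
  · rw [integrable_indicator_iff measurableSet_Icc]
    exact integrableOn_const (by rw [Real.volume_Icc]; exact ENNReal.ofReal_ne_top)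
  · exact hgi.const_mul K

theorem t_CON : S_CON := by
  intro C₀ η hη
  have hC : 0 < 2 + |C₀| := by positivity
  refine ⟨Real.exp Real.pi * (2 + |C₀|), min (1 / 2) (η / 2), by positivity, by positivity,
    (min_le_right _ _).trans (by linarith), ?_⟩
  intro Ω _ P _ X hX N hN hdec a r hr
  set ρ : ℝ := r / N with hρ
  have hρ0 : 0 < ρ := by positivity
  set η₁ : ℝ := min (1 / 2) (η / 2) with hη₁
  have hη₁0 : 0 < η₁ := by positivity
  have hC1 : 1 ≤ Real.exp Real.pi * (2 + |C₀|) := by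
    have h1 : 1 ≤ Real.exp Real.pi := Real.one_le_exp Real.pi_pos.le
    have h2 : (1 : ℝ) ≤ 2 + |C₀| := by linarith [abs_nonneg C₀]
    nlinarith
  rcases le_or_gt 1 ρ with h | h
  · have h1 : P.real {ω | |X ω - a| ≤ r} ≤ 1 := measureReal_le_one
    have h2 : 1 ≤ ρ ^ η₁ := Real.one_le_rpow h hη₁0.le
    nlinarith
  · have hδ : 0 < ρ ^ (1 / 2 : ℝ) := Real.rpow_pos_of_pos hρ0 _
    have h1 := small hη P X hX hN hdec a hr hδ
    have e1 : ρ ^ (1 / 2 : ℝ) * N / r = ρ ^ (-(1 / 2) : ℝ) := by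
      have : ρ ^ (1 / 2 : ℝ) * N / r = ρ ^ (1 / 2 : ℝ) * ρ ^ (-1 : ℝ) := by
        rw [Real.rpow_neg_one, hρ, inv_div, mul_div_assoc]
      rw [this, ← Real.rpow_add hρ0]
      norm_num
    have e2 : (ρ ^ (-(1 / 2) : ℝ)) ^ (-η) = ρ ^ (η / 2) := by
      rw [← Real.rpow_mul hρ0.le]
      congr 1
      ring
    rw [e1, e2] at h1
    have h2 : ρ ^ (1 / 2 : ℝ) ≤ ρ ^ η₁ :=
      Real.rpow_le_rpow_of_exponent_ge hρ0 h.le (min_le_left _ _)
    have h3 : ρ ^ (η / 2) ≤ ρ ^ η₁ :=
      Real.rpow_le_rpow_of_exponent_ge hρ0 h.le (min_le_right _ _)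
    have h4 : Real.exp (-Real.pi) * P.real {ω | |X ω - a| ≤ r} ≤ (2 + |C₀|) * ρ ^ η₁ := by
      have := mul_le_mul_of_nonneg_left h3 (abs_nonneg C₀)
      nlinarith
    have h5 := mul_le_mul_of_nonneg_left h4 (Real.exp_pos Real.pi).le
    have e3 : Real.exp Real.pi * (Real.exp (-Real.pi) * P.real {ω | |X ω - a| ≤ r}) =
        P.real {ω | |X ω - a| ≤ r} := by
      rw [← mul_assoc, ← Real.exp_add, add_neg_cancel, Real.exp_zero, one_mul]
    rw [e3] at h5
    calc _ ≤ _ := h5
      _ = _ := by ring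

end Pool.Agent.V5helper65.FZ
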